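import Pool.Agent.Y294.CC.Loc

/-!
# Cusps of caustics by reflection in a sequence of confocal ellipses

Definitions (`Pool/Agent/Y294/CC/Defs.lean`, `Pool/Agent/Helper19/Caustic/Defs.lean`):

* `Ellipse`: the curve `F = 1`, `F X = p x² + 2 q x y + r y²` positive definite in the coordinates
  `(x, y)` relative to the centre (circles included), `inside`: `F < 1`, `disc`: `F ≤ 1`;
  `foci`: the foci (for a circle the centre);
* `Confocal γ γ'`: same centre and same foci;
* `ray E S n φ`: starting point and direction of the light ray after `n` reflections in
  `E 0, …, E (n - 1)` (in this order), emitted at `S` in the direction `(cos φ, sin φ)`; every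
  reflection takes place where the ray leaves the region bounded by the next ellipse;
* `caustic E S n φ`: homogeneous coordinates of the point where the line of this ray touches the
  envelope of the lines;
* `IsClosedCurve`, `IsCusp`, `IsOrdinaryCusp`, `HasExactlyFourCusps`: as for one ellipse;
* `Bisects S A B φ`: the line through `S` of direction `(cos φ, sin φ)` bisects one of the two
  angles formed by the lines `SA` and `SB`;
* `OnConic γ t w`, `Touches γ t l`: the point with homogeneous coordinates `w` lies on, the line `l`
  touches the conic `C_t` of the confocal family of `γ` (for `γ : x² / a² + y² / b² = 1`: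
  `C_t : x² / (a² + t) + y² / (b² + t) = 1`).
-/

set_option autoImplicit false

namespace Pool.Agent.Results.MP_3225bd_gt.ConfocalMirrors

open Pool.Agent.Helper19.Caustic (Ellipse Plane lineOf)
open Pool.Agent.Y294.CC
open scoped ContDiff

/-- **Cusps of caustics by reflection in confocal ellipses.** Let `n ≥ 1` and let
`E 0, …, E (n - 1)` be confocal ellipses, in any order and with repetitions (all equal in the
question). The set of the foci is closed of measure zero, and for every source `S` inside all these
ellipses:
1. the `n`th caustic is a smooth closed curve in the projective plane;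
2. it has exactly four cusps if and only if `S` is not a focus;
3. if `S` is not a focus, all cusps are ordinary;
4. the cusps are on the rays emitted along the two bisectors of the angles formed by the lines from
   `S` to the foci, for all `n` and all sequences of confocal ellipses the same rays;
5. the cusp on such a ray lies on the confocal conic through `S` touched by the ray. -/
theorem result (n : ℕ) (hn : 1 ≤ n) (E : ℕ → Ellipse) (hE : ∀ k < n, Confocal (E 0) (E k)) :
    ((E 0).foci.Finite ∧ IsClosed (E 0).foci ∧ MeasureTheory.volume (E 0).foci = 0) ∧
    ∀ S : Plane, (∀ k < n, S ∈ (E k).inside) →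
      (IsClosedCurve E S n ∧
        ∀ φ, caustic E S n φ 2 ≠ 0 → (IsCusp E S n φ ↔
          deriv (fun s => ((caustic E S n s 0 / caustic E S n s 2,
            caustic E S n s 1 / caustic E S n s 2) : Plane)) φ = 0)) ∧
      (HasExactlyFourCusps E S n ↔ S ∉ (E 0).foci) ∧
      (S ∉ (E 0).foci → ∀ φ, IsCusp E S n φ → IsOrdinaryCusp E S n φ) ∧
      (∀ A ∈ (E 0).foci, ∀ B : Plane, A + B = (2 : ℝ) • (E 0).centre →
        ∀ φ, IsCusp E S n φ ↔ Bisects S A B φ) ∧
      (∀ φ, IsCusp E S n φ → ∃ t : ℝ,
        Touches (E 0) t (lineOf S (Real.cos φ, Real.sin φ)) ∧ Touches (E 0) t (line E S n φ) ∧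
        OnConic (E 0) t ![S.1, S.2, 1] ∧ OnConic (E 0) t (caustic E S n φ)) :=
  ⟨⟨foci_finite' (E 0), (foci_finite' (E 0)).isClosed, (foci_finite' (E 0)).measure_zero _⟩,
    fun S hS => by
      obtain ⟨h1, h2, h3, h4⟩ := main n hn E hE S hS
      exact ⟨h1, h2, h3, h4, main_loc n hn E hE S hS⟩⟩

end Pool.Agent.Results.MP_3225bd_gt.ConfocalMirrors
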